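import Pool.Agent.R537.TE.Stm

/-!
# Project TE: assembly
-/

namespace Pool.Agent.R537.TE

open scoped ENNReal
open Real Metric

theorem vec_apply_zero {m : ℕ} (t : Fin m → ℝ) : vec t 0 = -∑ i, t i := by simp [vec]

theorem vec_apply_succ {m : ℕ} (t : Fin m → ℝ) (i : Fin m) : vec t i.succ = t i := by simp [vec]

theorem ones_apply (m : ℕ) (i : Fin (m + 1)) : ones m i = 1 := by simp [ones]

theorem norm_sq_eq {n : ℕ} (x : E n) : ‖x‖ ^ 2 = ∑ i, x i ^ 2 := by
  rw [EuclideanSpace.norm_eq, Real.sq_sqrt (by positivity)]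
  simp

theorem norm_vec_sq {m : ℕ} (t : Fin m → ℝ) :
    ‖vec t‖ ^ 2 = ∑ i, t i ^ 2 + (∑ i, t i) ^ 2 := by
  rw [norm_sq_eq, Fin.sum_univ_succ, vec_apply_zero]
  simp only [vec_apply_succ]
  ring

theorem vec_sub {m : ℕ} (t s : Fin m → ℝ) : vec (t - s) = vec t - vec s := by
  ext i
  refine Fin.cases ?_ (fun j => ?_) i
  · rw [PiLp.sub_apply, vec_apply_zero, vec_apply_zero, vec_apply_zero]
    simp [Finset.sum_sub_distrib]
    ring
  · rw [PiLp.sub_apply, vec_apply_succ, vec_apply_succ, vec_apply_succ]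
    rfl

theorem continuous_vec {m : ℕ} : Continuous (vec : (Fin m → ℝ) → E (m + 1)) := by
  refine (PiLp.continuous_toLp 2 _).comp ?_
  refine continuous_pi fun i => ?_
  refine Fin.cases ?_ (fun j => ?_) i
  · simp only [Fin.cons_zero]
    fun_prop
  · simp only [Fin.cons_succ]
    fun_prop

theorem zero_mem_LL (m : ℕ) : (0 : E (m + 1)) ∈ LL m := ⟨0, by simp, by simp⟩

theorem isClosed_LL (m : ℕ) : IsClosed (LL m) := by
  have h : LL m = (⋂ i : Fin (m + 1), {x : E (m + 1) | x i ∈ Set.range ((↑) : ℤ → ℝ)}) ∩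
      {x : E (m + 1) | mean x ∈ Set.range ((↑) : ℤ → ℝ)} := by
    ext x
    simp only [LL, Set.mem_ofPred_eq, Set.mem_inter_iff, Set.mem_iInter, Set.mem_range]
    constructor
    · rintro ⟨k, hk, j, hj⟩
      refine ⟨fun i => ⟨k i, (hk i).symm⟩, j, ?_⟩
      have h0 : (0 : ℝ) < m + 1 := by positivity
      rw [mean, eq_div_iff h0.ne']
      have : ((∑ i, k i : ℤ) : ℝ) = (((m : ℤ) + 1) * j : ℤ) := by rw [hj]
      push_cast at this
      simp only [hk]
      rw [this]
      ring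
    · rintro ⟨h1, j, hj⟩
      choose k hk using h1
      refine ⟨k, fun i => (hk i).symm, j, ?_⟩
      have h0 : (0 : ℝ) < m + 1 := by positivity
      rw [mean, eq_div_iff h0.ne'] at hj
      have : ((∑ i, k i : ℤ) : ℝ) = (((m : ℤ) + 1) * j : ℤ) := by
        push_cast
        simp only [hk]
        linarith
      exact_mod_cast this
  have hZ : IsClosed (Set.range ((↑) : ℤ → ℝ)) := Int.isClosedEmbedding_coe_real.isClosed_range
  rw [h]
  refine IsClosed.inter (isClosed_iInter fun i => ?_) ?_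
  · exact hZ.preimage (by fun_prop)
  · refine hZ.preimage ?_
    unfold mean
    fun_prop

theorem vec_int_mem {m : ℕ} (k : Fin m → ℤ) : vec (fun i => (k i : ℝ)) ∈ LL m := by
  refine ⟨Fin.cons (-∑ i, k i) k, fun i => ?_, ?_⟩
  · refine Fin.cases ?_ (fun j => ?_) i
    · rw [vec_apply_zero]; push_cast [Fin.cons_zero]; rfl
    · rw [vec_apply_succ, Fin.cons_succ]
  · rw [Fin.sum_univ_succ]
    simp

theorem tc_smul_ones (m : ℕ) (c : ℝ) : tc (c • ones m) = 0 := by
  have h0 : (m : ℝ) + 1 ≠ 0 := by positivity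
  ext i
  simp [tc, mean, ones_apply]
  field_simp
  ring

theorem mean_smul_ones (m : ℕ) (c : ℝ) : mean (c • ones m) = c := by
  have h0 : (m : ℝ) + 1 ≠ 0 := by positivity
  simp [mean, ones_apply]
  field_simp

theorem norm_smul_ones_sq (m : ℕ) (c : ℝ) : ‖c • ones m‖ ^ 2 = (m + 1) * c ^ 2 := by
  rw [norm_sq_eq]
  simp [ones_apply]

theorem G_zero {ι : Type} [Fintype ι] (z : (ι → ℤ) → ℝ) : G z 0 = 0 := by
  simp [G]

theorem fone_sub_int (a x : ℝ) (k : ℤ) : fone a (x - k) = fone a x := by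
  unfold fone
  have h1 : cos (2 * π * (x - k)) = cos (2 * π * x) := by
    rw [show 2 * π * (x - k) = 2 * π * x - k * (2 * π) by ring, Real.cos_sub_int_mul_two_pi]
  have h2 : cos (6 * π * (x - k)) = cos (6 * π * x) := by
    rw [show 6 * π * (x - k) = 6 * π * x - ((3 * k : ℤ) : ℝ) * (2 * π) by push_cast; ring,
      Real.cos_sub_int_mul_two_pi]
  rw [h1, h2]

theorem c2_le {n : ℕ} {L : Set (E n)} (w : Weight L) (h : TorusInj L w.phi) :
    c2 L ≤ distortion L w.phi := by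
  unfold c2
  exact iInf_le_of_le (lp (fun _ : dual L => ℂ) 2) (iInf_le_of_le inferInstance
    (iInf_le_of_le inferInstance (iInf_le_of_le inferInstance (iInf_le_of_le w.phi
      (iInf_le_of_le h le_rfl)))))

theorem infDist_voronoi {n : ℕ} {L : Set (E n)} (h0 : (0 : E n) ∈ L) {y : E n}
    (hy : y ∈ voronoi L) : infDist y L = ‖y‖ := by
  refine le_antisymm ?_ ?_
  · simpa using infDist_le_dist_of_mem (x := y) h0
  · rw [le_infDist ⟨0, h0⟩]
    intro v hv
    rw [dist_eq_norm]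
    exact hy v hv

/-- the assembly for one dimension -/
theorem assembly_m (hAVG : S_AVG) (hCERT : S_CERT) (hONE : S_ONE) (hPYTH : S_PYTH)
    (hGLUE : S_GLUE) (hINT : S_INT) (hWT : S_WT) (hDIST : S_DIST) (hMAPS : S_MAPS) (hFIN : S_FIN)
    (m : ℕ) (hm : 1 ≤ m) (hH : 25 ≤ 2 * (∑ a ∈ Finset.Icc 1 m, 1 / (a : ℝ) - 1)) :
    ∃ w : Weight (LL m), w.Optimal ∧
      ∃ x, w.MostContracted x ∧ x ∈ interior (voronoi (LL m)) := by
  classical
  have h0L := zero_mem_LL m
  have hcl := isClosed_LL m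
  have hne : (LL m).Nonempty := ⟨0, h0L⟩
  set D : ℝ := (c2 (LL m)).toReal with hD
  have hD0 : 0 ≤ D := ENNReal.toReal_nonneg
  -- a point outside the lattice
  have hx1 : (1 / 2 : ℝ) • ones m ∉ LL m := by
    rintro ⟨k, hk, -⟩
    have h1 := hk 0
    simp only [PiLp.smul_apply, ones_apply, smul_eq_mul, mul_one] at h1
    have h2 : ((2 * k 0 : ℤ) : ℝ) = ((1 : ℤ) : ℝ) := by push_cast; linarith
    have h3 : 2 * k 0 = 1 := by exact_mod_cast h2
    omega
  have hq : ∀ t : Fin m → ℝ, infDist (vec t) (LL m) ^ 2 ≤ ∑ i, t i ^ 2 + (∑ i, t i) ^ 2 := by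
    intro t
    rw [← norm_vec_sq]
    have h1 : infDist (vec t) (LL m) ≤ ‖vec t‖ := by
      simpa using infDist_le_dist_of_mem (x := vec t) h0L
    have h2 : 0 ≤ infDist (vec t) (LL m) := infDist_nonneg
    nlinarith
  obtain ⟨z, hz0, hzs, hze, hzG⟩ := hAVG (Fin m) (fun t => infDist (vec t) (LL m) ^ 2) 2 (D ^ 2)
    (((continuous_infDist_pt _).comp continuous_vec).pow 2) (by positivity)
    (by
      intro i ε
      refine (hq _).trans ?_
      have e1 : ∑ j, (Pi.single i ε : Fin m → ℝ) j ^ 2 = ε ^ 2 := by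
        rw [Finset.sum_eq_single i]
        · simp
        · intro j _ hj; simp [Pi.single_eq_of_ne hj]
        · simp
      have e2 : ∑ j, (Pi.single i ε : Fin m → ℝ) j = ε := by
        simp
      rw [e1, e2]
      linarith)
    (by
      intro C' hC'
      obtain ⟨H, i1, i2, φ, hinj, hφ⟩ := hMAPS (m + 1) (LL m) _ C' hcl h0L hx1 (hFIN m) hC'
      refine ⟨H, i1, i2, fun t => φ (vec t), ?_, ?_⟩
      · intro t k
        rw [hinj]
        have : vec (fun i => t i + (k i : ℝ)) - vec t = vec (fun i => (k i : ℝ)) := by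
          rw [← vec_sub]
          congr 1
          ext i
          simp
        rw [this]
        exact vec_int_mem k
      · intro t t'
        have := hφ (vec t) (vec t')
        rw [← vec_sub] at this
        exact this)
  have hC25 : 25 ≤ D ^ 2 := by
    refine hH.trans (hCERT m z (D ^ 2) hm hz0 hzs ?_ ?_)
    · intro t
      exact (hzG t).2.trans (mul_le_mul_of_nonneg_left (hq t) (by positivity))
    · intro a ha ham
      exact (hGLUE m a ha ham).trans (hzG _).1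
  obtain ⟨a, x₀, ha, hx0, hx0', hf1, hf2, hf3⟩ := hONE
  obtain ⟨w, hw⟩ := hWT m z a hz0 hzs hze ha.le
  have hF : ∀ x, infDist x (LL m) ^ 2 ≤ w.F x ∧ w.F x ≤ D ^ 2 * infDist x (LL m) ^ 2 := by
    intro x
    have h1 := hzG (tc x)
    have h2 := hf1 (mean x - round (mean x)) (abs_sub_round _)
    have h3 := hf3 (mean x - round (mean x))
    rw [fone_sub_int] at h2 h3
    have hm0 : (0 : ℝ) < m + 1 := by positivity
    have h4 : fone a (mean x) ≤ D ^ 2 * (mean x - round (mean x)) ^ 2 :=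
      h3.trans (mul_le_mul_of_nonneg_right hC25 (sq_nonneg _))
    rw [hw, hPYTH m x]
    constructor
    · have := mul_le_mul_of_nonneg_left h2 hm0.le
      linarith [h1.1]
    · have := mul_le_mul_of_nonneg_left h4 hm0.le
      nlinarith [h1.2]
  obtain ⟨hinj, hdist⟩ := hDIST (m + 1) (LL m) w (D ^ 2) (by positivity) hcl hne hF
  refine ⟨w, ⟨hinj, le_antisymm ?_ (c2_le w hinj)⟩, x₀ • ones m, ⟨?_, ?_, ?_⟩, hINT m x₀ hx0 hx0'⟩
  · refine hdist.trans (le_of_eq ?_)
    rw [Real.sqrt_sq hD0, hD, ENNReal.ofReal_toReal (hFIN m)]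
  · exact interior_subset (hINT m x₀ hx0 hx0')
  · intro h
    have h1 := norm_smul_ones_sq m x₀
    rw [h, norm_zero] at h1
    have : (0 : ℝ) < (m + 1) * x₀ ^ 2 := by positivity
    nlinarith
  · intro y hy hy0
    have hxF : w.F (x₀ • ones m) = ‖x₀ • ones m‖ ^ 2 := by
      rw [hw, tc_smul_ones, mean_smul_ones, G_zero, hf2, norm_smul_ones_sq]
      ring
    have hxp : 0 < ‖x₀ • ones m‖ ^ 2 := by
      rw [norm_smul_ones_sq]; positivity
    rw [hxF, div_self hxp.ne']
    have h1 := (hF y).1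
    rw [infDist_voronoi h0L hy] at h1
    have h2 : 0 < ‖y‖ ^ 2 := by
      have := norm_pos_iff.2 hy0
      positivity
    rw [div_le_one (lt_of_lt_of_le h2 h1)]
    exact h1

/-- the assembly -/
theorem assembly (hAVG : S_AVG) (hCERT : S_CERT) (hONE : S_ONE) (hBAS : S_BAS) (hPYTH : S_PYTH)
    (hGLUE : S_GLUE) (hINT : S_INT) (hWT : S_WT) (hDIST : S_DIST) (hMAPS : S_MAPS)
    (hFIN : S_FIN) :
    ∃ n₀ : ℕ, ∀ n : ℕ, n₀ ≤ n → ∃ (b : Module.Basis (Fin n) ℝ (E n)) (w : Weight (latt b)),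
      w.Optimal ∧ ∃ x, w.MostContracted x ∧ x ∈ interior (voronoi (latt b)) := by
  have hdiv := Real.tendsto_sum_range_one_div_nat_succ_atTop
  obtain ⟨N, hN⟩ := Filter.eventually_atTop.1 (hdiv.eventually_ge_atTop (27 / 2 : ℝ))
  refine ⟨N + 2, fun n hn => ?_⟩
  obtain ⟨m, rfl⟩ : ∃ m, n = m + 1 := ⟨n - 1, by omega⟩
  have h1 := hN m (by omega)
  have h2 : ∑ a ∈ Finset.Icc 1 m, 1 / (a : ℝ) = ∑ i ∈ Finset.range m, 1 / ((i : ℝ) + 1) := by
    have h3 := Finset.sum_Ico_add' (fun i : ℕ => 1 / (i : ℝ)) 0 m 1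
    rw [Finset.range_eq_Ico]
    have h4 : Finset.Icc 1 m = Finset.Ico (0 + 1) (m + 1) := by
      ext x
      simp only [Finset.mem_Icc, Finset.mem_Ico]
      omega
    rw [h4, ← h3]
    refine Finset.sum_congr rfl fun i _ => ?_
    push_cast
    rfl
  obtain ⟨b, hb⟩ := hBAS m
  refine ⟨b, ?_⟩
  rw [hb]
  refine assembly_m hAVG hCERT hONE hPYTH hGLUE hINT hWT hDIST hMAPS hFIN m (by omega) ?_
  rw [h2]
  linarith

end Pool.Agent.R537.TE
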