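import Mathlib

/-!
# Embeddings of flat tori into Hilbert spaces: definitions

Definitions of the problem MP_507a1e_gt (least distortion embeddings of flat tori, most contracted
points).
-/

namespace Pool.Agent.R537.TE

open scoped ENNReal
open Real

/-- Euclidean space of dimension `n`. -/
abbrev E (n : ℕ) := EuclideanSpace ℝ (Fin n)

/-- The lattice of the integer combinations of a basis. -/
def latt {n : ℕ} (b : Module.Basis (Fin n) ℝ (E n)) : Set (E n) :=
  {v | ∃ k : Fin n → ℤ, v = ∑ i, (k i : ℝ) • b i}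

/-- The dual lattice. -/
def dual {n : ℕ} (L : Set (E n)) : Set (E n) :=
  {u | ∀ v ∈ L, ∃ k : ℤ, inner ℝ u v = k}

/-- The Voronoi cell of the origin. -/
def voronoi {n : ℕ} (L : Set (E n)) : Set (E n) :=
  {x | ∀ v ∈ L, ‖x‖ ≤ ‖x - v‖}

/-- The distance of the classes of `x` and `y` in the flat torus `ℝⁿ / L`, the minimum of
`‖x - y - v‖` over `v ∈ L`. -/
noncomputable def tdist {n : ℕ} (L : Set (E n)) (x y : E n) : ℝ :=
  Metric.infDist (x - y) L

/-- The map `φ` of `ℝⁿ` is well defined and injective on the flat torus `ℝⁿ / L`. -/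
def TorusInj {n : ℕ} (L : Set (E n)) {H : Type} (φ : E n → H) : Prop :=
  ∀ x y, φ x = φ y ↔ x - y ∈ L

/-- The expansion of a map of the torus. -/
noncomputable def expansion {n : ℕ} (L : Set (E n)) {H : Type} [NormedAddCommGroup H]
    (φ : E n → H) : ℝ≥0∞ :=
  ⨆ (x : E n) (y : E n) (_ : x - y ∉ L), ENNReal.ofReal (‖φ x - φ y‖ / tdist L x y)

/-- The contraction of a map of the torus. -/
noncomputable def contraction {n : ℕ} (L : Set (E n)) {H : Type} [NormedAddCommGroup H]
    (φ : E n → H) : ℝ≥0∞ :=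
  ⨆ (x : E n) (y : E n) (_ : x - y ∉ L), ENNReal.ofReal (tdist L x y / ‖φ x - φ y‖)

/-- The distortion of a map of the torus. -/
noncomputable def distortion {n : ℕ} (L : Set (E n)) {H : Type} [NormedAddCommGroup H]
    (φ : E n → H) : ℝ≥0∞ :=
  expansion L φ * contraction L φ

/-- The least distortion of the injective maps of the torus into complex Hilbert spaces. -/
noncomputable def c2 {n : ℕ} (L : Set (E n)) : ℝ≥0∞ :=
  ⨅ (H : Type) (_ : NormedAddCommGroup H) (_ : InnerProductSpace ℂ H) (_ : CompleteSpace H)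
    (φ : E n → H) (_ : TorusInj L φ), distortion L φ

/-- The weights `z : L* → [0, ∞)`, summable and even. -/
structure Weight {n : ℕ} (L : Set (E n)) where
  /-- the function -/
  z : dual L → ℝ
  nonneg : ∀ u, 0 ≤ z u
  summable : Summable z
  even : ∀ u v : dual L, (v : E n) = -(u : E n) → z v = z u

/-- `F_z (x) = 2 ∑ z (u) (1 - cos (2 π ⟨u, x⟩))`. -/
noncomputable def Weight.F {n : ℕ} {L : Set (E n)} (w : Weight L) (x : E n) : ℝ :=
  2 * ∑' u : dual L, w.z u * (1 - cos (2 * π * inner ℝ (u : E n) x))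

theorem memlp {n : ℕ} {L : Set (E n)} (w : Weight L) (x : E n) :
    Memℓp (fun u : dual L => ((√(w.z u) : ℝ) : ℂ) *
      Complex.exp (((2 * π * inner ℝ (u : E n) x : ℝ) : ℂ) * Complex.I)) 2 := by
  refine memℓp_gen ?_
  refine w.summable.congr fun u => ?_
  rw [norm_mul, Complex.norm_exp_ofReal_mul_I, mul_one, Complex.norm_real, Real.norm_eq_abs,
    abs_of_nonneg (Real.sqrt_nonneg _)]
  simp [Real.sq_sqrt (w.nonneg u)]

/-- The map `φ_z (x) = (√z (u) e ^ (2 π i ⟨u, x⟩))_u` into `ℓ² (L*)`. -/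
noncomputable def Weight.phi {n : ℕ} {L : Set (E n)} (w : Weight L) (x : E n) :
    lp (fun _ : dual L => ℂ) 2 :=
  ⟨fun u => ((√(w.z u) : ℝ) : ℂ) *
    Complex.exp (((2 * π * inner ℝ (u : E n) x : ℝ) : ℂ) * Complex.I), memlp w x⟩

/-- The weight is optimal: `φ_z` is injective on the torus and its distortion is the least one. -/
def Weight.Optimal {n : ℕ} {L : Set (E n)} (w : Weight L) : Prop :=
  TorusInj L w.phi ∧ distortion L w.phi = c2 L

/-- `x` is a most contracted point of `φ_z`. -/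
def Weight.MostContracted {n : ℕ} {L : Set (E n)} (w : Weight L) (x : E n) : Prop :=
  x ∈ voronoi L ∧ x ≠ 0 ∧ ∀ y ∈ voronoi L, y ≠ 0 → ‖y‖ ^ 2 / w.F y ≤ ‖x‖ ^ 2 / w.F x

end Pool.Agent.R537.TE
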