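import Pool.Agent.R537.TE.Defs

/-!
# Project TE: exact statements of the pieces (proofs in NOTES.md)
-/

namespace Pool.Agent.R537.TE

open scoped ENNReal
open Real

/-- `G z t = 2 ∑_c z (c) (1 - cos (2 π c · t))` on the standard torus. -/
noncomputable def G {ι : Type} [Fintype ι] (z : (ι → ℤ) → ℝ) (t : ι → ℝ) : ℝ :=
  2 * ∑' c : ι → ℤ, z c * (1 - cos (2 * π * ∑ i, (c i : ℝ) * t i))

/-- the function of one variable -/
noncomputable def fone (a x : ℝ) : ℝ := a * ((1 - cos (2 * π * x)) + (1 - cos (6 * π * x)))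

/-- `vec t = (-∑ t_i, t_1, …, t_m)`, the parametrization of the hyperplane of sum zero -/
noncomputable def vec {m : ℕ} (t : Fin m → ℝ) : E (m + 1) :=
  WithLp.toLp 2 (Fin.cons (-∑ i, t i) t)

/-- the vector `(1, …, 1)` -/
noncomputable def ones (m : ℕ) : E (m + 1) := WithLp.toLp 2 (fun _ => 1)

/-- the mean of the coordinates -/
noncomputable def mean {m : ℕ} (x : E (m + 1)) : ℝ := (∑ i, x i) / (m + 1)

/-- the coordinates in the hyperplane: `vec (tc x) = x - mean x • ones` -/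
noncomputable def tc {m : ℕ} (x : E (m + 1)) : Fin m → ℝ := fun i => x i.succ - mean x

/-- the lattice of the integer vectors with sum of the coordinates divisible by `m + 1`
(it is `A_m ⊕ ℤ (1, …, 1)`) -/
def LL (m : ℕ) : Set (E (m + 1)) :=
  {v | ∃ k : Fin (m + 1) → ℤ, (∀ i, v i = (k i : ℝ)) ∧ ((m : ℤ) + 1) ∣ ∑ i, k i}

/-- PARS: Parseval on a finite group, Hilbert space valued -/
def S_PARS : Prop :=
  ∀ (ι : Type) [Fintype ι] [DecidableEq ι] (H : Type) [NormedAddCommGroup H]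
    [InnerProductSpace ℂ H] (M : ℕ), 1 ≤ M → ∀ f : (ι → ℤ) → H,
    (∀ g k : ι → ℤ, f (fun i => g i + M * k i) = f g) →
    ∃ (s : Finset (ι → ℤ)) (z : (ι → ℤ) → ℝ),
      (∀ c ∈ s, ∀ i, 2 * |c i| ≤ (M : ℤ)) ∧ (∀ c, 0 ≤ z c) ∧
      ∀ h : ι → ℤ,
        ∑ c ∈ s, z c * (2 * (1 - cos (2 * π * (∑ i, (c i : ℝ) * (h i : ℝ)) / M))) =
          1 / (M : ℝ) ^ Fintype.card ι *
            ∑ g : ι → Fin M,
              ‖f (fun i => ((g i : ℕ) : ℤ) + h i) - f (fun i => ((g i : ℕ) : ℤ))‖ ^ 2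

/-- COMP: compactness of weights with bounded second moments -/
def S_COMP : Prop :=
  ∀ (ι : Type) [Fintype ι] [DecidableEq ι] (z : ℕ → (ι → ℤ) → ℝ) (B : ℝ),
    (∀ j c, 0 ≤ z j c) → (∀ j, (Function.support (z j)).Finite) → (∀ j, z j 0 = 0) →
    (∀ j i, ∑' c, z j c * (c i : ℝ) ^ 2 ≤ B) →
    ∃ w : (ι → ℤ) → ℝ, (∀ c, 0 ≤ w c) ∧ w 0 = 0 ∧ Summable w ∧
      ∃ U : Ultrafilter ℕ, (U : Filter ℕ) ≤ Filter.atTop ∧
        ∀ t : ι → ℝ, Filter.Tendsto (fun j => G (z j) t) U (nhds (G w t))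

/-- AVG: the averaging argument -/
def S_AVG : Prop :=
  ∀ (ι : Type) [Fintype ι] [DecidableEq ι] (q : (ι → ℝ) → ℝ) (K C : ℝ), Continuous q → 0 ≤ C →
    (∀ (i : ι) (ε : ℝ), q (Pi.single i ε) ≤ K * ε ^ 2) →
    (∀ C' : ℝ, C < C' → ∃ (H : Type) (_ : NormedAddCommGroup H) (_ : InnerProductSpace ℂ H)
      (φ : (ι → ℝ) → H), (∀ (t : ι → ℝ) (k : ι → ℤ), φ (fun i => t i + (k i : ℝ)) = φ t) ∧
        ∀ t t' : ι → ℝ, q (t - t') ≤ ‖φ t - φ t'‖ ^ 2 ∧ ‖φ t - φ t'‖ ^ 2 ≤ C' * q (t - t')) →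
    ∃ z : (ι → ℤ) → ℝ, (∀ c, 0 ≤ z c) ∧ Summable z ∧ (∀ c, z (-c) = z c) ∧
      ∀ t, q t ≤ G z t ∧ G z t ≤ C * q t

/-- CERT: the lower bound for the root lattice `A_m` -/
def S_CERT : Prop :=
  ∀ (m : ℕ) (z : (Fin m → ℤ) → ℝ) (C : ℝ), 1 ≤ m → (∀ c, 0 ≤ z c) → Summable z →
    (∀ t : Fin m → ℝ, G z t ≤ C * (∑ i, t i ^ 2 + (∑ i, t i) ^ 2)) →
    (∀ a : ℕ, 1 ≤ a → a ≤ m →
      (a : ℝ) * (m + 1 - a) / (m + 1) ≤ G z (fun _ => -((a : ℝ) / (m + 1)))) →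
    2 * (∑ a ∈ Finset.Icc 1 m, 1 / (a : ℝ) - 1) ≤ C

/-- ONE: the function of one variable -/
def S_ONE : Prop :=
  ∃ a x₀ : ℝ, 0 < a ∧ 0 < x₀ ∧ x₀ < 1 / 2 ∧ (∀ x : ℝ, |x| ≤ 1 / 2 → x ^ 2 ≤ fone a x) ∧
    fone a x₀ = x₀ ^ 2 ∧ ∀ x : ℝ, fone a x ≤ 25 * x ^ 2

/-- BAS: the lattice `LL m` is spanned by a basis -/
def S_BAS : Prop :=
  ∀ m : ℕ, ∃ b : Module.Basis (Fin (m + 1)) ℝ (E (m + 1)), latt b = LL m

/-- PYTH: the distance to the lattice in the two orthogonal components -/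
def S_PYTH : Prop :=
  ∀ (m : ℕ) (x : E (m + 1)), Metric.infDist x (LL m) ^ 2 =
    Metric.infDist (vec (tc x)) (LL m) ^ 2 + (m + 1) * (mean x - round (mean x)) ^ 2

/-- GLUE: the glue vectors of `A_m` -/
def S_GLUE : Prop :=
  ∀ m a : ℕ, 1 ≤ a → a ≤ m →
    (a : ℝ) * (m + 1 - a) / (m + 1) ≤
      Metric.infDist (vec (fun _ : Fin m => -((a : ℝ) / (m + 1)))) (LL m) ^ 2

/-- INT: a point of the interior of the Voronoi cell -/
def S_INT : Prop :=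
  ∀ (m : ℕ) (x₀ : ℝ), 0 < x₀ → x₀ < 1 / 2 → x₀ • ones m ∈ interior (voronoi (LL m))

/-- WT: the weight with two components -/
def S_WT : Prop :=
  ∀ (m : ℕ) (z : (Fin m → ℤ) → ℝ) (a : ℝ), (∀ c, 0 ≤ z c) → Summable z →
    (∀ c, z (-c) = z c) → 0 ≤ a →
    ∃ w : Weight (LL m), ∀ x, w.F x = G z (tc x) + (m + 1) * fone a (mean x)

/-- PHI: the norm of the differences of `φ_z` -/
def S_PHI : Prop :=
  ∀ (n : ℕ) (L : Set (E n)) (w : Weight L) (x y : E n), ‖w.phi x - w.phi y‖ ^ 2 = w.F (x - y)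

/-- DIST: upper bound for the distortion of `φ_z` -/
def S_DIST : Prop :=
  ∀ (n : ℕ) (L : Set (E n)) (w : Weight L) (C : ℝ), 0 ≤ C → IsClosed L → L.Nonempty →
    (∀ x, Metric.infDist x L ^ 2 ≤ w.F x ∧ w.F x ≤ C * Metric.infDist x L ^ 2) →
    TorusInj L w.phi ∧ distortion L w.phi ≤ ENNReal.ofReal (√C)

/-- MAPS: rescaled maps of almost least distortion -/
def S_MAPS : Prop :=
  ∀ (n : ℕ) (L : Set (E n)) (x₁ : E n) (C : ℝ), IsClosed L → (0 : E n) ∈ L → x₁ ∉ L →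
    c2 L ≠ ⊤ → (c2 L).toReal ^ 2 < C →
    ∃ (H : Type) (_ : NormedAddCommGroup H) (_ : InnerProductSpace ℂ H) (φ : E n → H),
      TorusInj L φ ∧ ∀ x y, Metric.infDist (x - y) L ^ 2 ≤ ‖φ x - φ y‖ ^ 2 ∧
        ‖φ x - φ y‖ ^ 2 ≤ C * Metric.infDist (x - y) L ^ 2

/-- FIN: the least distortion is finite -/
def S_FIN : Prop := ∀ m : ℕ, c2 (LL m) ≠ ⊤

end Pool.Agent.R537.TE
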